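import Mathlib
import Pool.Agent.H9.VR

namespace Pool.Agent.Results.MP_b9e9b1_co.Counter

open Finset Pool.Agent.H9.VR

/-- Hamming diameter of a subset of the cube. -/
def diam {n : ℕ} (A : Finset (Fin n → Bool)) : ℕ := A.sup fun x => A.sup fun y => hammingDist x y

/-- `A` has diameter `r` and adding any further point makes the diameter exceed `r`. -/
def MaxDiam {n : ℕ} (r : ℕ) (A : Finset (Fin n → Bool)) : Prop :=
  diam A = r ∧ ∀ x, x ∉ A → r < diam (insert x A)

/-- Every point of `A` has largest distance to `A` equal to the diameter. -/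
def Rigid {n : ℕ} (A : Finset (Fin n → Bool)) : Prop :=
  ∀ a ∈ A, (A.sup fun x => hammingDist x a) = diam A

open Classical in
/-- The largest size of a rigid, maximally diameter-`r` subset of `Q_n`. -/
noncomputable def b (n r : ℕ) : ℕ :=
  (univ.filter fun A : Finset (Fin n → Bool) => MaxDiam r A ∧ Rigid A).sup card

theorem conv {n r : ℕ} {A : Finset (Fin n → Bool)} (h : Good r A) (hne : A.Nonempty) :
    MaxDiam r A ∧ Rigid A := by
  have le : ∀ (B : Finset (Fin n → Bool)), ∀ x ∈ B, ∀ y ∈ B, hammingDist x y ≤ diam B :=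
    fun B x hx y hy => (le_sup (f := fun y => hammingDist x y) hy).trans
      (le_sup (f := fun x => B.sup fun y => hammingDist x y) hx)
  have d : diam A = r := by
    refine le_antisymm (Finset.sup_le fun x hx => Finset.sup_le fun y hy => h.1 x hx y hy) ?_
    obtain ⟨x, hx⟩ := hne
    obtain ⟨y, hy, e⟩ := h.2.1 x hx
    exact e ▸ le A x hx y hy
  refine ⟨⟨d, fun x hx => ?_⟩, fun a ha => ?_⟩
  · obtain ⟨y, hy, e⟩ := h.2.2 x hx
    exact e.trans_le (le _ x (mem_insert_self _ _) y (mem_insert_of_mem hy))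
  · rw [d]
    refine le_antisymm (Finset.sup_le fun x hx => h.1 x hx a ha) ?_
    obtain ⟨y, hy, e⟩ := h.2.1 a ha
    rw [← e, hammingDist_comm]
    exact le_sup (f := fun x => hammingDist x a) hy

theorem result : (∀ r n : ℕ, 6 ≤ r → r + 2 ≤ n → 85 * 2 ^ (r - 6) ≤ b n r ∧ 2 ^ r < b n r) ∧
    ¬ ∀ n r : ℕ, r ≤ n → b n r = 2 ^ r := by
  classical
  have main : ∀ r n : ℕ, 6 ≤ r → r + 2 ≤ n → 85 * 2 ^ (r - 6) ≤ b n r ∧ 2 ^ r < b n r := by
    intro r n hr hn
    obtain ⟨m, rfl⟩ := Nat.exists_eq_add_of_le hr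
    obtain ⟨B, h1, h2⟩ := big m n (by omega)
    have p : 0 < 2 ^ m := by positivity
    have : B.card ≤ b n (6 + m) :=
      le_sup (f := card) (mem_filter.2 ⟨mem_univ B, conv h1 (card_pos.1 (by omega))⟩)
    rw [Nat.add_sub_cancel_left, pow_add]
    omega
  exact ⟨main, fun h => (main 6 8 le_rfl le_rfl).2.ne' (h 8 6 (by norm_num))⟩

end Pool.Agent.Results.MP_b9e9b1_co.Counter
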